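import Pool.Agent.H80.JD.Basic

set_option autoImplicit false

namespace Pool.Agent.H20.JD
open Finset Filter Topology Pool.Agent.H80.JD

lemma ip_append {k l : ℕ} (h₁ : Fin k → Bool) (h₂ : Fin l → Bool) :
    ip (Fin.append h₁ h₂) (zero (k + l)) = ip h₁ (zero k) + ip h₂ (zero l) := by
  rw [ip_zero, ip_zero, ip_zero, Fin.sum_univ_add]
  simp only [Fin.append_left, Fin.append_right]

lemma ip_not {l : ℕ} (h : Fin l → Bool) :
    ip (fun i => !(h i)) (zero l) = - ip h (zero l) := by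
  rw [ip_zero, ip_zero, ← Finset.sum_neg_distrib]
  exact Finset.sum_congr rfl fun i _ => sg_not _

lemma one_sub_pr (k : ℕ) (K : ℝ) : 1 - pr k K =
    (Nat.card {h : Fin k → Bool // ¬ |((ip h (zero k) : ℤ) : ℝ)| ≤ K} : ℝ) / 2 ^ k := by
  have h := card_add_card_not (fun h : Fin k → Bool => |((ip h (zero k) : ℤ) : ℝ)| ≤ K)
  rw [card_rows] at h
  have h2 : (Nat.card {h : Fin k → Bool // |((ip h (zero k) : ℤ) : ℝ)| ≤ K} : ℝ) +
      (Nat.card {h : Fin k → Bool // ¬ |((ip h (zero k) : ℤ) : ℝ)| ≤ K} : ℝ) = 2 ^ k := by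
    exact_mod_cast h
  unfold pr
  rw [eq_div_iff (by positivity), sub_mul, div_mul_cancel₀ _ (by positivity), one_mul]
  linarith

theorem lv : T_LV := by
  classical
  intro k l K
  rw [one_sub_pr, one_sub_pr]
  have key : Nat.card ({h : Fin k → Bool // ¬ |((ip h (zero k) : ℤ) : ℝ)| ≤ K} ×
      (Fin l → Bool)) ≤ Nat.card (Bool ×
        {h : Fin (k + l) → Bool // ¬ |((ip h (zero (k + l)) : ℤ) : ℝ)| ≤ K}) := by
    have hc : ∀ (h₁ : Fin k → Bool) (h₂ : Fin l → Bool),
        ¬ |((ip h₁ (zero k) : ℤ) : ℝ)| ≤ K →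
        |((ip (Fin.append h₁ h₂) (zero (k + l)) : ℤ) : ℝ)| ≤ K →
        ¬ |((ip (Fin.append h₁ (fun i => !(h₂ i))) (zero (k + l)) : ℤ) : ℝ)| ≤ K := by
      intro h₁ h₂ h3 h4 h5
      rw [ip_append] at h4 h5
      rw [ip_not] at h5
      push_cast at h4 h5
      rw [abs_le] at h4 h5
      apply h3
      rw [abs_le]
      constructor <;> linarith [h4.1, h4.2, h5.1, h5.2]
    let φ : ({h : Fin k → Bool // ¬ |((ip h (zero k) : ℤ) : ℝ)| ≤ K} × (Fin l → Bool)) →
        (Bool × {h : Fin (k + l) → Bool // ¬ |((ip h (zero (k + l)) : ℤ) : ℝ)| ≤ K}) := fun p =>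
      if h : |((ip (Fin.append p.1.1 p.2) (zero (k + l)) : ℤ) : ℝ)| ≤ K then
        (false, ⟨Fin.append p.1.1 (fun i => !(p.2 i)), hc _ _ p.1.2 h⟩)
      else (true, ⟨Fin.append p.1.1 p.2, h⟩)
    refine Nat.card_le_card_of_injective φ ?_
    have happ : ∀ (a a' : Fin k → Bool) (b b' : Fin l → Bool),
        Fin.append a b = Fin.append a' b' → a = a' ∧ b = b' := by
      intro a a' b b' h
      constructor
      · funext i
        have := congrFun h (Fin.castAdd l i)
        simpa only [Fin.append_left] using this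
      · funext i
        have := congrFun h (Fin.natAdd k i)
        simpa only [Fin.append_right] using this
    rintro ⟨⟨a, ha⟩, b⟩ ⟨⟨a', ha'⟩, b'⟩ h
    simp only [φ] at h
    split_ifs at h with h1 h2 h2
    · simp only [Prod.mk.injEq, Subtype.mk.injEq, true_and] at h
      obtain ⟨e1, e2⟩ := happ _ _ _ _ h
      have e3 : b = b' := by
        funext i
        have := congrFun e2 i
        simpa using this
      subst e1 e3
      rfl
    · simp at h
    · simp at h
    · simp only [Prod.mk.injEq, Subtype.mk.injEq, true_and] at h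
      obtain ⟨e1, e2⟩ := happ _ _ _ _ h
      subst e1 e2
      rfl
  rw [Nat.card_prod, Nat.card_prod, card_rows, Nat.card_eq_fintype_card (α := Bool),
    Fintype.card_bool] at key
  have key2 : (Nat.card {h : Fin k → Bool // ¬ |((ip h (zero k) : ℤ) : ℝ)| ≤ K} : ℝ) * 2 ^ l ≤
      2 * (Nat.card {h : Fin (k + l) → Bool // ¬ |((ip h (zero (k + l)) : ℤ) : ℝ)| ≤ K} : ℝ) := by
    exact_mod_cast key
  rw [div_le_iff₀ (by positivity), pow_add]
  have h2k : (0 : ℝ) < 2 ^ k := by positivity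
  have h2l : (0 : ℝ) < 2 ^ l := by positivity
  have h3 : 2 * ((Nat.card {h : Fin (k + l) → Bool // ¬ |((ip h (zero (k + l)) : ℤ) : ℝ)| ≤ K} : ℝ) /
      (2 ^ k * 2 ^ l)) * 2 ^ k =
      (2 * (Nat.card {h : Fin (k + l) → Bool // ¬ |((ip h (zero (k + l)) : ℤ) : ℝ)| ≤ K} : ℝ)) /
        2 ^ l := by
    field_simp
  rw [h3, le_div_iff₀ h2l]
  exact key2

end Pool.Agent.H20.JD
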