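import Pool.Agent.H80.JD.Basic

set_option autoImplicit false

namespace Pool.Agent.H20.JD
open Finset Filter Topology Pool.Agent.H80.JD

theorem pa : T_PA := by
  classical
  intro n T _ _ f D M hM
  let A : Bool → T → Finset (Fin n) := fun b t => univ.filter (fun c => f c = t ∧ D c = b)
  have hA : ∀ b t, cls f D t b = (A b t).card := fun b t => rfl
  let s : T → ℕ := fun t => min (cls f D t true) (cls f D t false)
  have hs : ∀ b t, s t ≤ (A b t).card := by
    intro b t
    cases b
    · exact min_le_right _ _
    · exact min_le_left _ _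
  have hcard : Fintype.card (Σ t, Fin (s t)) = M := by
    rw [Fintype.card_sigma]
    simp only [Fintype.card_fin]
    exact hM
  let e : Fin M ≃ (Σ t, Fin (s t)) := (Fintype.equivFinOfCardEq hcard).symm
  let F : Bool → (Σ t, Fin (s t)) → Fin n := fun b p =>
    ((A b p.1).equivFin.symm (Fin.castLE (hs b p.1) p.2)).1
  have hF : ∀ b p, f (F b p) = p.1 ∧ D (F b p) = b := by
    intro b p
    have h := ((A b p.1).equivFin.symm (Fin.castLE (hs b p.1) p.2)).2
    exact (Finset.mem_filter.1 h).2
  have hinj : ∀ b, Function.Injective (F b) := by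
    rintro b ⟨t, i⟩ ⟨t', i'⟩ h
    have h1 : t = t' := by
      have h2 := (hF b ⟨t, i⟩).1
      have h3 := (hF b ⟨t', i'⟩).1
      rw [h] at h2
      exact h2.symm.trans h3
    subst h1
    have h4 := Subtype.ext h
    have h5 := (A b t).equivFin.symm.injective h4
    have h6 : i = i' := Fin.castLE_injective _ h5
    rw [h6]
  refine ⟨fun k => F true (e k), fun k => F false (e k), (hinj true).comp e.injective,
    (hinj false).comp e.injective, fun k => ⟨?_, (hF true _).2, (hF false _).2⟩⟩
  rw [(hF true _).1, (hF false _).1]

end Pool.Agent.H20.JD
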