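import Pool.Agent.H80.JD.Basic

set_option autoImplicit false

namespace Pool.Agent.H20.JD
open Finset Filter Topology Pool.Agent.H80.JD

theorem pr2 (hSP : T_SP) : T_PR2 := by
  classical
  intro n M D K s hD hs
  obtain ⟨A, B, hAB, hcard⟩ := hSP n M D hD
  have hMn : M ≤ n := by
    rw [← hD]
    exact hammingDist_le_n _ _
  set c : ℕ → ℝ → ℕ := fun k t => Nat.card {h : Fin k → Bool // |((ip h (zero k) : ℤ) : ℝ)| ≤ t}
    with hc
  have hpr : ∀ k t, pr k t = (c k t : ℝ) / 2 ^ k := fun k t => rfl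
  have hE : ((E (RK K) [D]).card) ≤
      Nat.card {h : Fin n → Bool // |((A h : ℤ) : ℝ)| ≤ K ∧ |((B h : ℤ) : ℝ)| ≤ s} +
      Nat.card {h : Fin n → Bool // |((A h : ℤ) : ℝ)| ≤ K - s ∧ ¬ |((B h : ℤ) : ℝ)| ≤ s} := by
    rw [Nat.card_eq_fintype_card, Nat.card_eq_fintype_card, Fintype.card_subtype,
      Fintype.card_subtype]
    refine (Finset.card_le_card ?_).trans (Finset.card_union_le _ _)
    intro h hh
    rw [mem_E] at hh
    obtain ⟨h1, h2⟩ := hh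
    have h2 := h2 D (List.mem_singleton.2 rfl)
    rw [(hAB h).1] at h1
    rw [(hAB h).2] at h2
    unfold RK at h1 h2
    push_cast at h1 h2
    rw [Finset.mem_union, Finset.mem_filter, Finset.mem_filter]
    have h3 : |((A h : ℤ) : ℝ)| + |((B h : ℤ) : ℝ)| ≤ K := by
      rw [abs_le] at h1 h2
      rcases abs_cases ((A h : ℤ) : ℝ) with ⟨e, _⟩ | ⟨e, _⟩ <;>
        rcases abs_cases ((B h : ℤ) : ℝ) with ⟨e', _⟩ | ⟨e', _⟩ <;> rw [e, e'] <;>
        linarith [h1.1, h1.2, h2.1, h2.2]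
    by_cases h4 : |((B h : ℤ) : ℝ)| ≤ s
    · left
      exact ⟨Finset.mem_univ _, by linarith [abs_nonneg ((B h : ℤ) : ℝ)], h4⟩
    · right
      exact ⟨Finset.mem_univ _, by linarith [not_le.1 h4], h4⟩
  have h1 := hcard (fun v => |(v : ℝ)| ≤ K) (fun v => |(v : ℝ)| ≤ s)
  have h2 := hcard (fun v => |(v : ℝ)| ≤ K - s) (fun v => ¬ |(v : ℝ)| ≤ s)
  have h3 := card_add_card_not (fun h : Fin M → Bool => |((ip h (zero M) : ℤ) : ℝ)| ≤ s)
  rw [card_rows] at h3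
  rw [h1, h2] at hE
  have h3 : c M s +
      Nat.card {h : Fin M → Bool // ¬ |((ip h (zero M) : ℤ) : ℝ)| ≤ s} = 2 ^ M := h3
  have hE : (E (RK K) [D]).card ≤ c (n - M) K * c M s + c (n - M) (K - s) *
      Nat.card {h : Fin M → Bool // ¬ |((ip h (zero M) : ℤ) : ℝ)| ≤ s} := hE
  clear_value c
  generalize Nat.card {h : Fin M → Bool // ¬ |((ip h (zero M) : ℤ) : ℝ)| ≤ s} = d at h3 hE
  have hE' : ((E (RK K) [D]).card : ℝ) ≤ (c (n - M) K : ℝ) * (c M s : ℝ) +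
      (c (n - M) (K - s) : ℝ) * (2 ^ M - (c M s : ℝ)) := by
    have h4 : (d : ℝ) = 2 ^ M - (c M s : ℝ) := by
      have h5 : ((c M s : ℕ) : ℝ) + (d : ℝ) = 2 ^ M := by
        exact_mod_cast h3
      linarith
    rw [← h4]
    exact_mod_cast hE
  rw [hpr, hpr, hpr, div_le_iff₀ (by positivity)]
  have hpow : (2 : ℝ) ^ n = 2 ^ (n - M) * 2 ^ M := by
    rw [← pow_add]
    congr 1
    omega
  refine hE'.trans (le_of_eq ?_)
  rw [hpow]
  have p1 : (2 : ℝ) ^ (n - M) ≠ 0 := by positivity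
  have p2 : (2 : ℝ) ^ M ≠ 0 := by positivity
  generalize (2 : ℝ) ^ (n - M) = x at p1 ⊢
  generalize (2 : ℝ) ^ M = y at p2 ⊢
  field_simp

end Pool.Agent.H20.JD
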